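import Pool.Agent.Run7.h636.LT.Iface
import Pool.Agent.N496.CV.ConvB

/-!
# Project LT, piece P4I: the Laplacians of the Davis complex are injective if the reduced `ℓ²`-homology vanishes
-/

set_option autoImplicit false

set_option linter.unusedSectionVars false

open scoped Matrix InnerProductSpace

noncomputable section

namespace Run7.h85.LT.P4I

open Module Pool.Agent.N496.LT Pool.Agent.TH630.Tor Pool.Agent.Helper993.FK Pool.Agent.Helper993.Delta
open Pool.Agent.W907.SG Pool.Agent.W461.SGN Pool.Agent.N496.CV Pool.Agent.N496.CV.CB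

section coords

variable {Q : Type} [Group Q] {r s : ℕ}

theorem toQ_coeff' (a : MonoidAlgebra ℤ Q) (g : Q) : (toQ a).coeff g = ((a.coeff g : ℤ) : ℚ) := by
  simp [toQ]

/-- coordinates of a right multiplication -/
theorem rMul_coord (A : Matrix (Fin r) (Fin s) (MonoidAlgebra ℤ Q)) (x : L2Pow Q r) (j : Fin s) (h : Q) :
    coord (rMul (A.map toQ) x) j h =
      ∑ i, (A i j).coeff.sum fun g a => a • coord x i (h * g⁻¹) := by
  rw [rMul_apply]
  refine Finset.sum_congr rfl fun i _ => ?_
  unfold Finsupp.sum
  have h1 : (((A.map toQ) i j).coeff).support = ((A i j).coeff).support := by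
    ext g
    rw [Finsupp.mem_support_iff, Finsupp.mem_support_iff, Matrix.map_apply, toQ_coeff']
    simp
  rw [h1]
  refine Finset.sum_congr rfl fun g _ => ?_
  rw [Matrix.map_apply, toQ_coeff']
  simp

/-- coordinates of the adjoint of a right multiplication -/
theorem adj_coord (A : Matrix (Fin r) (Fin s) (MonoidAlgebra ℤ Q)) (x : L2Pow Q s) (i : Fin r) (h : Q) :
    coord ((rMul (A.map toQ)).adjoint x) i h =
      ∑ j, (A i j).coeff.sum fun g a => a • coord x j (h * g) := by
  rw [adjoint_rMul, ← toQ_adjZ, rMul_coord]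
  refine Finset.sum_congr rfl fun j _ => ?_
  have h1 : (adjZ A j i).coeff = Finsupp.mapDomain (fun g => g⁻¹) (A i j).coeff := by
    simp [adjZ, MonoidAlgebra.mapDomain]
  rw [h1, Finsupp.sum_mapDomain_index]
  · simp only [inv_inv]
  · intro g
    exact zero_smul _ _
  · intro g a b
    exact add_smul _ _ _

end coords

section ext

variable {Q : Type} [Group Q] (C : GCx Q)

/-- the numbering of the cells of degree `n` -/
def eqv (n : ℕ) : {i : C.ι // C.deg i = n} ≃ Fin (C.toFree.rank n) := Fintype.equivFin {i : C.ι // C.deg i = n}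

theorem d_eqv (n : ℕ) (k : {i : C.ι // C.deg i = n + 1}) (l : {i : C.ι // C.deg i = n}) :
    C.toFree.d n (eqv C (n + 1) k) (eqv C n l) = C.D k.1 l.1 := by
  show C.D ((Fintype.equivFin {i : C.ι // C.deg i = n + 1}).symm (Fintype.equivFin {i : C.ι // C.deg i = n + 1} k)).1
    ((Fintype.equivFin {i : C.ι // C.deg i = n}).symm (Fintype.equivFin {i : C.ι // C.deg i = n} l)).1 = _
  rw [Equiv.symm_apply_apply, Equiv.symm_apply_apply]

/-- extension by zero to all the degrees -/
def ex (n : ℕ) (v : L2Pow Q (C.toFree.rank n)) (i : C.ι) (g : Q) : ℂ :=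
  if h : C.deg i = n then coord v (eqv C n ⟨i, h⟩) g else 0

variable {C}

theorem ex_sub {n : ℕ} (v : L2Pow Q (C.toFree.rank n)) (k : {i : C.ι // C.deg i = n}) (g : Q) :
    ex C n v k.1 g = coord v (eqv C n k) g := by
  unfold ex
  rw [dif_pos k.2]

theorem ex_ne {n : ℕ} (v : L2Pow Q (C.toFree.rank n)) {i : C.ι} (h : C.deg i ≠ n) : ex C n v i = 0 := by
  funext g
  unfold ex
  rw [dif_neg h]
  rfl

theorem ex_inj {n : ℕ} (v : L2Pow Q (C.toFree.rank n)) (h : ex C n v = 0) : v = 0 := by
  apply coord_ext
  intro j g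
  have h1 := congrFun (congrFun h ((eqv C n).symm j).1) g
  rw [ex_sub, Equiv.apply_symm_apply] at h1
  exact h1

/-- the boundary -/
theorem bd_ex {n : ℕ} (v : L2Pow Q (C.toFree.rank n)) (hv : ∀ m (h : m + 1 = n),
    C.toFree.l2d m (h ▸ v) = 0) (j : C.ι) (g : Q) :
    ∑ i, (C.D i j).coeff.sum (fun γ a => a • ex C n v i (g * γ⁻¹)) = 0 := by
  by_cases hj : C.deg j + 1 = n
  · subst hj
    have h1 : C.toFree.l2d (C.deg j) v = 0 := hv (C.deg j) rfl
    have h3 : coord (C.toFree.l2d (C.deg j) v) (eqv C _ ⟨j, rfl⟩) g =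
        ∑ a, ((C.toFree.d (C.deg j)) a (eqv C _ ⟨j, rfl⟩)).coeff.sum
          fun γ c => c • coord v a (g * γ⁻¹) := rMul_coord _ _ _ _
    rw [h1, coord_zero, ← (eqv C (C.deg j + 1)).sum_comp] at h3
    rw [h3, ← sum_deg C.deg (C.deg j + 1)]
    · refine Finset.sum_congr rfl fun k _ => ?_
      rw [d_eqv]
      exact congrArg (C.D k.1 j).coeff.sum (funext fun γ => funext fun a => by rw [← ex_sub v k])
    · intro k hk
      rw [ex_ne v hk]
      unfold Finsupp.sum
      simp
  · refine Finset.sum_eq_zero fun i _ => ?_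
    by_cases hi : C.deg i = n
    · have h1 : C.D i j = 0 := by
        by_contra h0
        exact hj (by rw [← C.D_deg _ _ h0, hi])
      rw [h1]
      simp
    · rw [ex_ne v hi]
      unfold Finsupp.sum
      simp

/-- the coboundary -/
theorem cob_ex {n : ℕ} (v : L2Pow Q (C.toFree.rank n)) (hv : (C.toFree.l2d n).adjoint v = 0) (j : C.ι) (g : Q) :
    ∑ i, (C.D j i).coeff.sum (fun γ a => a • ex C n v i (g * γ)) = 0 := by
  by_cases hj : C.deg j = n + 1
  · have h3 : coord ((C.toFree.l2d n).adjoint v) (eqv C (n + 1) ⟨j, hj⟩) g =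
        ∑ a, ((C.toFree.d n) (eqv C (n + 1) ⟨j, hj⟩) a).coeff.sum
          fun γ c => c • coord v a (g * γ) := adj_coord _ _ _ _
    rw [hv, coord_zero, ← (eqv C n).sum_comp] at h3
    rw [h3, ← sum_deg C.deg n]
    · refine Finset.sum_congr rfl fun k _ => ?_
      rw [d_eqv]
      exact congrArg (C.D j k.1).coeff.sum (funext fun γ => funext fun a => by rw [← ex_sub v k])
    · intro k hk
      rw [ex_ne v hk]
      unfold Finsupp.sum
      simp
  · refine Finset.sum_eq_zero fun i _ => ?_
    by_cases hi : C.deg i = n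
    · have h1 : C.D j i = 0 := by
        by_contra h0
        exact hj (by rw [C.D_deg _ _ h0, hi])
      rw [h1]
      simp
    · rw [ex_ne v hi]
      unfold Finsupp.sum
      simp

end ext

section davis

variable {V : Type} [Fintype V] [LinearOrder V] {G : SimpleGraph V}

/-- the functional -/
def Lg {R : Type} [AddCommGroup R] (v : (davis G).ι → (th G).ker → R) (i : (davis G).ι) (g : (th G).ker) :
    MonoidAlgebra ℤ (th G).ker →+ R where
  toFun a := a.coeff.sum fun γ n => n • v i (g * γ)
  map_zero' := by simp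
  map_add' a b := by
    rw [MonoidAlgebra.coeff_add]
    exact Finsupp.sum_add_index' (fun _ => zero_smul _ _) (fun _ _ _ => add_smul _ _ _)

theorem Lg_single {R : Type} [AddCommGroup R] (v : (davis G).ι → (th G).ker → R) (i : (davis G).ι)
    (g γ : (th G).ker) : Lg v i g (MonoidAlgebra.single γ 1) = v i (g * γ) := by
  show (MonoidAlgebra.single γ (1 : ℤ)).coeff.sum (fun γ n => n • v i (g * γ)) = _
  rw [MonoidAlgebra.coeff_single, Finsupp.sum_single_index (by simp), one_smul]

theorem Lg_one {R : Type} [AddCommGroup R] (v : (davis G).ι → (th G).ker → R) (i : (davis G).ι) (g : (th G).ker) :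
    Lg v i g 1 = v i g := by
  rw [MonoidAlgebra.one_def, Lg_single, mul_one]

theorem term {R : Type} [AddCommGroup R] (v : (davis G).ι → (th G).ker → R) (j i : (davis G).ι) (g : (th G).ker) :
    (((davis G).D j i).coeff.sum fun γ a => a • v i (g * γ)) =
      ∑ t ∈ j.1.1, if i.1.1 = j.1.1.erase t then sg t (j.1.1.erase t) •
        ((if i.1.2 = j.1.2 then v i g else 0) - (if i.1.2 = insert t j.1.2 then
          v i (g * gm G (rep G j.1.2 * (cox G).simple t)) else 0)) else 0 := by
  classical
  have h0 : (((davis G).D j i).coeff.sum fun γ a => a • v i (g * γ)) = Lg v i g ((davis G).D j i) := rfl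
  rw [h0]
  have h1 : (davis G).D j i = ∑ t ∈ j.1.1, if i.1.1 = j.1.1.erase t then
    ((sg t (j.1.1.erase t) : ℤ) : MonoidAlgebra ℤ (th G).ker) *
      ((if i.1.2 = j.1.2 then 1 else 0) - (if i.1.2 = insert t j.1.2 then
        MonoidAlgebra.single (gm G (rep G j.1.2 * (cox G).simple t)) 1 else 0)) else 0 := by
    unfold davis
    simp only [Matrix.of_apply]
    all_goals (refine Finset.sum_congr rfl fun t _ => ?_; split_ifs <;> rfl)
  rw [h1, map_sum]
  refine Finset.sum_congr rfl fun t _ => ?_
  split_ifs with h2 h3 h4 h4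
  · rw [← zsmul_eq_mul, map_zsmul, map_sub, Lg_one, Lg_single]
  · rw [← zsmul_eq_mul, map_zsmul, map_sub, Lg_one, map_zero]
  · rw [← zsmul_eq_mul, map_zsmul, map_sub, Lg_single, map_zero]
  · rw [← zsmul_eq_mul, map_zsmul, map_sub, map_zero]
  · rw [map_zero]

/-- the adjoint of the boundary in terms of functions on the Coxeter group, at the base points -/
theorem base {R : Type} [Ring R] (v : (davis G).ι → (th G).ker → R) (j : (davis G).ι) (g : (th G).ker)
    (h0 : ∑ i, (((davis G).D j i).coeff.sum fun γ a => a • v i (g * γ)) = 0) :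
    ∑ t ∈ j.1.1, sg t (j.1.1.erase t) • (Psi v (j.1.1.erase t) ((g : W G) * rep G j.1.2) -
      Psi v (j.1.1.erase t) ((g : W G) * rep G j.1.2 * (cox G).simple t)) = 0 := by
  classical
  obtain ⟨⟨T, A⟩, hT, hd⟩ := j
  have h9 : ∑ i, (((davis G).D (⟨(T, A), hT, hd⟩ : (davis G).ι) i).coeff.sum fun γ a => a • v i (g * γ)) =
      ∑ i : (davis G).ι, ∑ t ∈ T, (if i.1.1 = T.erase t then sg t (T.erase t) •
        ((if i.1.2 = A then v i g else 0) - (if i.1.2 = insert t A then
          v i (g * gm G (rep G A * (cox G).simple t)) else 0)) else 0) :=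
    Finset.sum_congr rfl fun i _ => term v _ i g
  have h10 := h9.symm.trans h0
  rw [Finset.sum_comm] at h10
  rw [← h10]
  refine Finset.sum_congr rfl fun t ht => ?_
  simp only at ht ⊢
  have htA : t ∉ A := Finset.disjoint_left.1 hd ht
  have hc : G.IsClique ((T.erase t : Finset V) : Set V) := hT.subset (by simp)
  have hd0 : Disjoint (T.erase t) A := Finset.disjoint_of_subset_left (Finset.erase_subset _ _) hd
  have hd1 : Disjoint (T.erase t) (insert t A) := by
    rw [Finset.disjoint_insert_right]
    exact ⟨Finset.notMem_erase _ _, hd0⟩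
  obtain ⟨i0, hi0⟩ : ∃ i0 : (davis G).ι, i0 = ⟨(T.erase t, A), hc, hd0⟩ := ⟨_, rfl⟩
  obtain ⟨i1, hi1⟩ : ∃ i1 : (davis G).ι, i1 = ⟨(T.erase t, insert t A), hc, hd1⟩ := ⟨_, rfl⟩
  have e0 : Psi v (T.erase t) ((g : W G) * rep G A) = v i0 g := by
    have := psi_rep v i0 g
    rw [hi0] at this ⊢
    exact this
  have e1 : Psi v (T.erase t) ((g : W G) * rep G A * (cox G).simple t) =
      v i1 (g * gm G (rep G A * (cox G).simple t)) := by
    have h2 := psi_rep v i1 (g * gm G (rep G A * (cox G).simple t))
    have h3 : ((g * gm G (rep G A * (cox G).simple t) : (th G).ker) : W G) * rep G (insert t A) =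
        (g : W G) * rep G A * (cox G).simple t := by
      rw [Subgroup.coe_mul, gm_val G A t htA]
      group
    rw [hi1] at h2 ⊢
    rw [← h2]
    show _ = Psi v (T.erase t) (_ * rep G (insert t A))
    rw [h3]
  rw [e0, e1]
  have e2 : ∀ i : (davis G).ι, (if i.1.1 = T.erase t then sg t (T.erase t) •
        ((if i.1.2 = A then v i g else 0) - (if i.1.2 = insert t A then
          v i (g * gm G (rep G A * (cox G).simple t)) else 0)) else 0) =
      sg t (T.erase t) • ((if i = i0 then v i g else 0) -
        (if i = i1 then v i (g * gm G (rep G A * (cox G).simple t)) else 0)) := by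
    intro i
    have f0 : i = i0 ↔ i.1.1 = T.erase t ∧ i.1.2 = A := by
      constructor
      · rintro rfl
        rw [hi0]
        exact ⟨rfl, rfl⟩
      · intro h
        rw [hi0]
        exact Subtype.ext (Prod.ext h.1 h.2)
    have f1 : i = i1 ↔ i.1.1 = T.erase t ∧ i.1.2 = insert t A := by
      constructor
      · rintro rfl
        rw [hi1]
        exact ⟨rfl, rfl⟩
      · intro h
        rw [hi1]
        exact Subtype.ext (Prod.ext h.1 h.2)
    by_cases h1 : i.1.1 = T.erase t
    · rw [if_pos h1]
      simp only [f0, f1, h1, true_and]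
    · rw [if_neg h1, if_neg (fun h => h1 (f0.1 h).1), if_neg (fun h => h1 (f1.1 h).1), sub_zero, smul_zero]
  rw [Finset.sum_congr rfl fun i _ => e2 i, ← Finset.smul_sum, Finset.sum_sub_distrib, Finset.sum_ite_eq',
    Finset.sum_ite_eq', if_pos (Finset.mem_univ _), if_pos (Finset.mem_univ _)]

/-- the cocycle condition everywhere -/
theorem coc {R : Type} [Ring R] (v : (davis G).ι → (th G).ker → R)
    (h0 : ∀ j g, ∑ i, (((davis G).D j i).coeff.sum fun γ a => a • v i (g * γ)) = 0) (w : W G) (T : Finset V)
    (hT : G.IsClique (T : Set V)) :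
    ∑ t ∈ T, sg t (T.erase t) • (Psi v (T.erase t) w - Psi v (T.erase t) (w * (cox G).simple t)) = 0 := by
  classical
  let E : W G → R := fun w =>
    ∑ t ∈ T, sg t (T.erase t) • (Psi v (T.erase t) w - Psi v (T.erase t) (w * (cox G).simple t))
  have hE : ∀ u ∈ T, ∀ w, E (w * (cox G).simple u) = - E w := by
    intro u hu w
    show ∑ t ∈ T, _ = - ∑ t ∈ T, _
    rw [← Finset.sum_neg_distrib]
    refine Finset.sum_congr rfl fun t ht => ?_
    rw [← smul_neg]
    congr 1
    by_cases htu : t = u
    · subst htu
      rw [mul_mul_simple, neg_sub]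
    · have hu' : u ∈ T.erase t := Finset.mem_erase.2 ⟨fun h => htu h.symm, hu⟩
      have h2 : w * (cox G).simple u * (cox G).simple t = w * (cox G).simple t * (cox G).simple u := by
        rw [mul_assoc, mul_assoc, simple_comm G u t (hT hu ht (fun h => htu h.symm))]
      rw [h2, psi_anti v _ hu', psi_anti v _ hu']
      abel
  show E w = 0
  rw [decomp T w, anti_rep hE Finset.inter_subset_right]
  have h1 : E ((gg T w : W G) * rep G (par G w \ T)) = 0 := by
    have h2 := base v (⟨(T, par G w \ T), hT, Finset.disjoint_sdiff⟩ : (davis G).ι) (gg T w) (h0 _ _)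
    exact h2
  rw [h1, mul_zero]

theorem psi_zero {R : Type} [Ring R] : Psi (0 : (davis G).ι → (th G).ker → R) = 0 := by
  funext T w
  unfold Psi
  split_ifs
  · show _ * (0 : R) = 0
    rw [mul_zero]
  · rfl

theorem decomp_inj (T : Finset V) : Function.Injective fun w : W G =>
    ((gg T w, (par G w \ T, par G w ∩ T)) : (th G).ker × (Finset V × Finset V)) := by
  intro w w' h
  simp only [Prod.mk.injEq] at h
  rw [decomp T w, decomp T w', h.1, h.2.1, h.2.2]

/-- square summability -/
theorem summ {n : ℕ} (v : L2Pow (th G).ker ((davis G).toFree.rank n)) (T : Finset V) :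
    Summable fun w : W G => ‖Psi (ex (davis G) n v) T w‖ ^ 2 := by
  classical
  have hx : ∀ i : (davis G).ι, Summable fun g : (th G).ker => ‖ex (davis G) n v i g‖ ^ 2 := by
    intro i
    by_cases hi : (davis G).deg i = n
    · have h1 := coord_summable v
      have h2 : Function.Injective fun g : (th G).ker =>
          ((eqv (davis G) n ⟨i, hi⟩, g) : Fin ((davis G).toFree.rank n) × (th G).ker) := by
        intro a b hab
        exact (Prod.mk.inj hab).2
      have h3 := h1.comp_injective h2
      refine h3.congr fun g => ?_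
      simp only [Function.comp_apply]
      have h4 : ex (davis G) n v i g = coord v (eqv (davis G) n ⟨i, hi⟩) g := ex_sub v ⟨i, hi⟩ g
      rw [h4]
      norm_num
    · rw [ex_ne v hi]
      simpa using (summable_zero : Summable fun _ : (th G).ker => (0 : ℝ))
  by_cases hT : G.IsClique (T : Set V)
  swap
  · have h1 : ∀ w, Psi (ex (davis G) n v) T w = 0 := by
      intro w
      unfold Psi
      rw [dif_neg hT]
    simp only [h1]
    simpa using (summable_zero : Summable fun _ : W G => (0 : ℝ))
  have hF : Summable fun p : (th G).ker × (Finset V × Finset V) =>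
      ‖vv (ex (davis G) n v) T p.2.1 p.1‖ ^ 2 := by
    have h1 : ∀ B : Finset V × Finset V, Summable fun p : (th G).ker × (Finset V × Finset V) =>
        if p.2 = B then ‖vv (ex (davis G) n v) T B.1 p.1‖ ^ 2 else 0 := by
      intro B
      have h2 : Function.Injective fun g : (th G).ker => ((g, B) : (th G).ker × (Finset V × Finset V)) := by
        intro a b hab
        simpa using hab
      rw [← h2.summable_iff]
      · simp only [Function.comp_def, if_true]
        unfold vv
        by_cases h3 : G.IsClique (T : Set V) ∧ Disjoint T B.1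
        · simp only [dif_pos h3]
          exact hx _
        · simp only [dif_neg h3]
          simpa using (summable_zero : Summable fun _ : (th G).ker => (0 : ℝ))
      · rintro ⟨g, B'⟩ hp
        rw [if_neg]
        rintro rfl
        exact hp ⟨g, rfl⟩
    have h2 := summable_sum (s := (Finset.univ : Finset (Finset V × Finset V))) fun B _ => h1 B
    refine h2.congr fun p => ?_
    rw [Finset.sum_ite_eq, if_pos (Finset.mem_univ _)]
  have h5 := hF.comp_injective (decomp_inj (G := G) T)
  refine h5.congr fun w => ?_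
  simp only [Function.comp_apply]
  rw [psi_vv, norm_mul, norm_pow, norm_neg, norm_one, one_pow, one_mul]

/-- harmonic chains from real parts -/
theorem harm {n : ℕ} (v : L2Pow (th G).ker ((davis G).toFree.rank n))
    (h1 : ∀ j g, ∑ i, ((davis G).D i j).coeff.sum (fun γ a => a • ex (davis G) n v i (g * γ⁻¹)) = 0)
    (h2 : ∀ j g, ∑ i, ((davis G).D j i).coeff.sum (fun γ a => a • ex (davis G) n v i (g * γ)) = 0)
    (φ : ℂ →+ ℝ) (hφ : ∀ z, |φ z| ≤ ‖z‖) : IsHarm G n fun w T => φ (Psi (ex (davis G) n v) T w) := by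
  classical
  have hz : ∀ (m : ℤ) (z : ℂ), (m : ℝ) * φ z = φ (m • z) := by
    intro m z
    rw [map_zsmul, zsmul_eq_mul]
  refine ⟨?_, ?_, ?_, ?_, ?_⟩
  · intro w T hT
    have h3 : Psi (ex (davis G) n v) T w = 0 := by
      unfold Psi
      by_cases hc : G.IsClique (T : Set V)
      · rw [dif_pos hc]
        have h4 : (davis G).deg (ix T hc w) ≠ n := fun h => hT ⟨hc, h⟩
        rw [ex_ne v h4]
        show _ * (0 : ℂ) = 0
        rw [mul_zero]
      · rw [dif_neg hc]
    simp only [h3, map_zero]
  · intro w T t ht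
    simp only [psi_anti _ T ht w, map_neg]
  · have h3 : ∀ T : Finset V, Summable fun x : W G × Finset V =>
        if x.2 = T then (φ (Psi (ex (davis G) n v) T x.1)) ^ 2 else 0 := by
      intro T
      have h4 : Function.Injective fun w : W G => ((w, T) : W G × Finset V) := by
        intro a b hab
        simpa using hab
      rw [← h4.summable_iff]
      · simp only [Function.comp_def, if_true]
        refine Summable.of_nonneg_of_le (fun _ => sq_nonneg _) (fun w => ?_) (summ v T)
        rw [← sq_abs]
        exact pow_le_pow_left₀ (abs_nonneg _) (hφ _) 2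
      · rintro ⟨w, B⟩ hp
        rw [if_neg]
        rintro rfl
        exact hp ⟨w, rfl⟩
    have h4 := summable_sum (s := (Finset.univ : Finset (Finset V))) fun B _ => h3 B
    refine h4.congr fun p => ?_
    rw [Finset.sum_ite_eq, if_pos (Finset.mem_univ _)]
  · intro w T
    have h3 : mulD (ex (davis G) n v) = 0 := by
      funext j g
      exact h1 j g
    have h4 := congrFun (congrFun (psi_mulD (ex (davis G) n v)) T) w
    rw [h3, psi_zero] at h4
    unfold bdf at h4
    simp only [hz]
    rw [← map_sum, ← h4]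
    exact map_zero φ
  · intro w T hT
    have h4 := coc (ex (davis G) n v) h2 w T hT
    simp only [← map_sub, hz]
    rw [← map_sum, h4, map_zero]

end davis

theorem main : Run7.h636.LT.S_P4I := by
  intro V _ _ G hG n v hv
  have hb : ((davis G).toFree.l2d n).adjoint v = 0 ∧
      ∀ m (h : m + 1 = n), (davis G).toFree.l2d m (h ▸ v) = 0 := by
    cases n with
    | zero => exact ⟨lap_ker_zero _ v hv, fun m h => by omega⟩
    | succ n =>
      have h := lap_ker ((davis G).toFree.l2d n) ((davis G).toFree.l2d (n + 1)) v hv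
      refine ⟨h.2, fun m hm => ?_⟩
      obtain rfl : m = n := by omega
      exact h.1
  have h1 := bd_ex v hb.2
  have h2 := cob_ex v hb.1
  have hre := hG n _ (harm v h1 h2 Complex.reAddGroupHom (fun z => Complex.abs_re_le_norm z))
  have him := hG n _ (harm v h1 h2 Complex.imAddGroupHom (fun z => Complex.abs_im_le_norm z))
  apply ex_inj
  apply psi_inj
  rw [psi_zero]
  funext T w
  apply Complex.ext
  · exact congrFun (congrFun hre w) T
  · exact congrFun (congrFun him w) T

end Run7.h85.LT.P4I
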